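import Mathlib
import Pool.Agent.Lib.MP_547adb_gt.Concrete
import Pool.Agent.Lib.MP_547adb_gt.AllN

/-!
# A Tychonoff space `X` such that `F(X)` is a `k_R`-space but no `F_n(X)`, `n ≥ 1`, is

All definitions used in the statement are in `Pool.Agent.Lib.MP_547adb_gt.Markov`:

* `IsKR Y`: every real function on `Y` that is continuous on every compact subset is continuous;
* `FT X`: the abstract free group `FreeGroup X` with the finest group topology for which the
  inclusion `FT.of` of the generators is continuous (`GroupTops X` is the set of all these
  group topologies; in Mathlib's order of topologies `sInf` gives the finest one);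
* `FN X n`: the products of at most `n` elements of `X` and inverses of elements of `X`.

Outline of the example.  Let `A`, `B` be the compact ordinal spaces `ω₁ + 1`, `ω₂ + 1` and let `I`
be the set of elements of `A` below the top.  The points of `X` are the families
`(t_i, y_i)_{i ∈ I}` with `t_i ∈ B`, `y_i ∈ {0,1}`, that are `(⊤, 1)` from some index on and such
that `t_i < ⊤` whenever `y_i = 0` (a `Σ`-product).  Its closure in the product is everything, and
the topology of `X` comes from the quotient of the product in which `(t, 1)` and `(t, 0)` are
identified for each family `t`.  The function `y_0` is continuous on the compact subsets of `X`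
but not continuous, so `X` is not a `k_R`-space; nor is `F_n(X)`, which contains `X^n` as a clopen
subspace.  On the other hand, for `t` with all `t_i < ⊤` there are pairs `u_γ, v_γ` (`γ < ω₁`) in
`X` with `u_γ v_γ⁻¹ → 1` in `F(X)` which converge to `(t, 1), (t, 0)` in the product; this
forces the natural extension (to the free group of the product) of each function on `F(X)` that is
continuous on compact sets to respect the identification, and this makes it continuous.
-/

set_option autoImplicit false

namespace Pool.Agent.Results.MP_547adb_gt.FreeKRNotFn

open Topology Pool.Agent.Lib.MP_547adb_gt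

/-- There is a Tychonoff space `X` whose free topological group `F(X)` is a `k_R`-space while
`F_n(X)` is not a `k_R`-space for any `n ≥ 1`. The middle clauses record that `FT X` is the free
topological group over `X`: it is a Hausdorff topological group, algebraically free over `X`,
contains `X` as a subspace and has the universal property. -/
theorem result.{u} :
    ∃ (X : Type) (_ : TopologicalSpace X), T35Space X ∧
      (IsTopologicalGroup (FT X) ∧ T2Space (FT X) ∧ IsEmbedding (FT.of (X := X)) ∧
        ∀ (H : Type u) [Group H] [TopologicalSpace H] [IsTopologicalGroup H] (φ : X → H),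
          Continuous φ → ∃ Φ : FT X →* H, Continuous Φ ∧ ∀ x, Φ (FT.of x) = φ x) ∧
      IsKR (FT X) ∧ ∀ n : ℕ, 1 ≤ n → ¬ IsKR (FN X n) := by
  obtain ⟨A, B, i1, i2, i3, i4, hA, hB, hbig⟩ := exists_big
  have hemb : IsEmbedding (XS.psi (A := A) (B := B)) := XS.isEmbedding_psi
  exact ⟨XS A B, inferInstance, hemb.t35Space, ⟨inferInstance, FT.t2 _ hemb,
    FT.isEmbedding_of _ hemb, fun H _ _ _ φ hφ => ⟨FT.lift φ, FT.continuous_lift φ hφ,
      FT.lift_of φ⟩⟩, FT_isKR hbig, fun n hn => not_isKR_FN _ hemb (XS_not_isKR hbig) n hn⟩

end Pool.Agent.Results.MP_547adb_gt.FreeKRNotFn
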